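import Pool.Agent.Lib.helper21.DLO

set_option autoImplicit false

namespace Pool.Agent.H.MP_5076ba_lc

open FirstOrder FirstOrder.Language Set Pool.Agent.Lib.helper21.RN

section Tr

variable {L : FirstOrder.Language.{0, 0}} {M N : Type} [L.Structure M] [L.Structure N]

theorem tr_all (e : M ↪ₑ[L] N) {α β : Type} [Finite β] (φ : L.Formula (α ⊕ β)) (a : α → M)
    (h : ∀ z, φ.Realize (Sum.elim a z)) (z : β → N) : φ.Realize (Sum.elim (e ∘ a) z) :=
  Formula.realize_iAlls.1 ((e.map_formula (φ.iAlls β) a).2 (Formula.realize_iAlls.2 h)) z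

theorem tr_one (e : M ↪ₑ[L] N) {α : Type} (φ : L.Formula (α ⊕ Unit)) (a : α → M) (x : M) :
    φ.Realize (Sum.elim (e ∘ a) fun _ => e x) ↔ φ.Realize (Sum.elim a fun _ => x) := by
  refine Iff.trans (iff_of_eq ?_) (e.map_formula φ _)
  rw [Sum.comp_elim]; rfl

theorem tr_fin (e : M ↪ₑ[L] N) {α : Type} (φ : L.Formula (α ⊕ Unit)) (a : α → M) {s : Set M}
    (hs : s.Finite) (h : ∀ x, φ.Realize (Sum.elim a fun _ => x) → x ∈ s) (y : N)
    (hy : φ.Realize (Sum.elim (e ∘ a) fun _ => y)) : y ∈ e '' s := by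
  have := hs.to_subtype
  have := tr_all e (α := α ⊕ s) (β := Unit) (φ.relabel (Sum.map .inl id) ⟹ Formula.iSup fun i : s =>
    (Term.var (.inl (.inr i))).equal (.var (.inr ()))) (Sum.elim a (↑)) (fun z => by
      simpa [Formula.realize_imp, Sum.elim_comp_map] using h (z ())) fun _ => y
  exact (by simpa [Formula.realize_imp, Sum.elim_comp_map] using this :
    φ.Realize (Sum.elim ((e ∘ Sum.elim a Subtype.val) ∘ Sum.inl) fun _ => y) → _) hy

end Tr

abbrev V := ℕ →₀ ZMod 2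

abbrev X := ℕ × V

theorem lin {α : Type} [Fintype α] (x y : α → V)
    (h : ∀ c : α → ZMod 2, ∑ i, c i • x i = 0 ↔ ∑ i, c i • y i = 0) :
    ∃ g : V ≃ₗ[ZMod 2] V, ∀ i, g (x i) = y i := by
  classical
  have k : LinearMap.ker (Fintype.linearCombination (ZMod 2) x) =
      LinearMap.ker (Fintype.linearCombination (ZMod 2) y) :=
    Submodule.ext fun c => by simpa [Fintype.linearCombination_apply] using h c
  obtain ⟨g, hg⟩ := Submodule.exists_linearEquiv_restrict_eq
    ((LinearMap.quotKerEquivRange _).symm.trans ((Submodule.quotEquivOfEq _ _ k).trans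
      (LinearMap.quotKerEquivRange _)))
  refine ⟨g, fun i => ?_⟩
  have := hg ⟨_, Pi.single i 1, rfl⟩
  simp only [LinearEquiv.trans_apply, LinearMap.quotKerEquivRange_symm_apply_image] at this
  simpa using this.symm

theorem two (u : V) : u + u = 0 := by ext; simp [CharTwo.add_self_eq_zero]

theorem fix (W : Submodule (ZMod 2) V) {u u' : V} (h : u ∉ W) (h' : u' ∉ W) :
    ∃ g : V ≃ₗ[ZMod 2] V, (∀ w ∈ W, g w = w) ∧ g u = u' := by
  have z : ∀ c : ZMod 2, c = 0 ∨ c = 1 := by decide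
  obtain ⟨f, f1, f2⟩ := (W ⊔ .span _ {u + u'}).exists_dual_map_eq_bot_of_notMem (x := u) (by
    rw [Submodule.mem_sup]
    rintro ⟨w, hw, _, k, e⟩
    obtain ⟨c, rfl⟩ := Submodule.mem_span_singleton.1 k
    rcases z c with rfl | rfl
    · rw [zero_smul, add_zero] at e; exact h (e ▸ hw)
    · refine h' ((?_ : w = u') ▸ hw)
      rw [one_smul, add_left_comm, add_eq_left] at e
      rw [← add_zero w, ← two u', ← add_assoc, e, zero_add]) inferInstance
  have f3 : ∀ w ∈ W ⊔ .span _ {u + u'}, f w = 0 := fun w hw =>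
    (Submodule.mem_bot _).1 (f2 ▸ Submodule.mem_map_of_mem hw)
  have f4 := f3 _ (Submodule.mem_sup_right (Submodule.mem_span_singleton_self _))
  refine ⟨.ofInvolutive (.id + f.smulRight (u + u')) fun v => ?_, fun w hw => ?_, ?_⟩
  · simp [f4, add_assoc, two, -smul_add]
  · simp [f3 w (Submodule.mem_sup_left hw)]
  · simp [(z _).resolve_left f1, ← add_assoc, two]

def o : X := (0, 0)

def G : Subgroup (Equiv.Perm X) where
  carrier := {f | f o = o ∧ ∃ g : V ≃ₗ[ZMod 2] V, ∀ a b, (a.1 = b.1 ↔ (f a).1 = (f b).1) ∧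
    (a.1 = b.1 → (f a).2 - (f b).2 = g (a.2 - b.2))}
  one_mem' := ⟨rfl, .refl _ _, fun _ _ => ⟨.rfl, fun _ => rfl⟩⟩
  mul_mem' := by
    rintro f f' ⟨h0, g, h⟩ ⟨k0, g', k⟩
    exact ⟨by simp [h0, k0], g'.trans g, fun a b => ⟨(k a b).1.trans (h _ _).1, fun e =>
      ((h _ _).2 ((k a b).1.1 e)).trans (congrArg g ((k a b).2 e))⟩⟩
  inv_mem' := by
    rintro f ⟨h0, g, h⟩
    refine ⟨Equiv.Perm.inv_eq_iff_eq.2 h0.symm, g.symm, fun a b => ?_⟩
    have := h (f⁻¹ a) (f⁻¹ b)
    simp only [Equiv.Perm.coe_inv, Equiv.apply_symm_apply] at this ⊢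
    exact ⟨this.1.symm, fun e => by rw [this.2 (this.1.2 e), g.symm_apply_apply]⟩

theorem hom {α : Type} [Finite α] (x y : α → X) (i0 : α) (hx : x i0 = o) (hy : y i0 = o)
    (h1 : ∀ i j, (x i).1 = (x j).1 ↔ (y i).1 = (y j).1) (g : V ≃ₗ[ZMod 2] V)
    (h2 : ∀ i j, (x i).1 = (x j).1 → (y i).2 - (y j).2 = g ((x i).2 - (x j).2)) :
    ∃ f ∈ G, f ∘ x = y := by
  classical
  obtain ⟨σ, hσ⟩ := Equiv.Perm.exists_extending_pair
    (f := ((↑) : (range fun i => (x i).1) → ℕ)) (g := fun t => (y t.2.choose).1)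
    Subtype.val_injective fun s t h => Subtype.ext
      (s.2.choose_spec.symm.trans (((h1 _ _).2 h).trans t.2.choose_spec))
  have s : ∀ i, σ (x i).1 = (y i).1 := fun i => (hσ ⟨_, i, rfl⟩).trans
    ((h1 _ _).1 (mem_range_self (f := fun i => (x i).1) i).choose_spec)
  have : ∀ t, ∃ w : V, ∀ i, (x i).1 = t → g (x i).2 + w = (y i).2 := fun t => by
    by_cases k : ∃ i, (x i).1 = t
    · obtain ⟨j, rfl⟩ := k
      exact ⟨(y j).2 - g (x j).2, fun i e => by
        have := h2 i j e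
        rw [map_sub] at this
        rw [add_sub_left_comm, ← this, add_sub_cancel]⟩
    · exact ⟨0, fun i e => absurd ⟨i, e⟩ k⟩
  choose w hw using this
  let f : Equiv.Perm X := σ.prodShear fun t => g.toEquiv.trans (.addRight (w t))
  have e : ∀ i, f (x i) = y i := fun i => Prod.ext (s i) (hw _ i rfl)
  exact ⟨f, ⟨by simpa [hx, hy] using e i0, g, fun a b => ⟨σ.injective.eq_iff.symm, fun k => by
    change g a.2 + w a.1 - (g b.2 + w b.1) = _
    rw [k, map_sub]; abel⟩⟩, funext e⟩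

theorem olig : Olig G := fun α _ => by
  classical
  have := Fintype.ofFinite α
  let D : (α → X) → Option α × Option α → V := fun x p =>
    if (p.1.elim o x).1 = (p.2.elim o x).1 then (p.1.elim o x).2 - (p.2.elim o x).2 else 0
  refine ⟨(Option α → Option α → Prop) × Set (Option α × Option α → ZMod 2), inferInstance,
    fun x => (fun i j => (i.elim o x).1 = (j.elim o x).1, {c | ∑ i, c i • D x i = 0}),
    fun x y h => ?_⟩
  have h1 : ∀ i j : Option α, (i.elim o x).1 = (j.elim o x).1 ↔ (i.elim o y).1 = (j.elim o y).1 :=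
    fun i j => iff_of_eq (congrFun₂ (congrArg Prod.fst h) i j)
  obtain ⟨g, hg⟩ := lin (D x) (D y) (Set.ext_iff.1 (congrArg Prod.snd h))
  obtain ⟨f, f1, f2⟩ := hom (fun i : Option α => i.elim o x) (fun i => i.elim o y) none rfl rfl h1 g
    fun i j e => by simpa [D, e, (h1 i j).1 e] using (hg (i, j)).symm
  exact ⟨f, f1, funext fun i => congrFun f2 (some i)⟩

/-- One point homogeneity over a tuple containing the origin. -/
theorem one {α : Type} [Finite α] (a : α → X) (i0 : α) (ha : a i0 = o) (g : V ≃ₗ[ZMod 2] V)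
    (hg : ∀ i j, (a i).1 = (a j).1 → g ((a i).2 - (a j).2) = (a i).2 - (a j).2) (x y : X)
    (h1 : ∀ i, x.1 = (a i).1 ↔ y.1 = (a i).1)
    (h2 : ∀ i, x.1 = (a i).1 → y.2 - (a i).2 = g (x.2 - (a i).2))
    (φ : (CL G).Formula (α ⊕ Unit)) :
    φ.Realize (Sum.elim a fun _ => x) ↔ φ.Realize (Sum.elim a fun _ => y) := by
  obtain ⟨f, f1, f2⟩ := hom (Sum.elim a fun _ : Unit => x) (Sum.elim a fun _ => y) (.inl i0) ha ha
    (by rintro (i | i) (j | j) <;> simp [h1, eq_comm (a := (a _).1) (b := x.1),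
      eq_comm (a := (a _).1) (b := y.1)]) g (by
      rintro (i | i) (j | j) e
      exacts [(hg i j e).symm, neg_injective (by simpa [← map_neg] using h2 i e.symm), h2 j e,
        by simp])
  rw [← f2, aut f1]

theorem near {α : Type} [Finite α] (a : α → X) (z : X) : ∃ C : Set X, C.Finite ∧
    ∀ x ∉ C, ∀ y ∉ C, x.1 = z.1 → y.1 = z.1 → ∀ φ : (CL G).Formula (α ⊕ Unit),
      φ.Realize (Sum.elim a fun _ => x) ↔ φ.Realize (Sum.elim a fun _ => y) := by
  let b : α ⊕ Bool → X := Sum.elim a fun i => cond i z o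
  let W := Submodule.span (ZMod 2) (range fun p : (α ⊕ Bool) × (α ⊕ Bool) => (b p.1).2 - (b p.2).2)
  have : Module.Finite (ZMod 2) W := Module.Finite.span_of_finite _ (finite_range _)
  have : Finite W := Module.finite_of_finite (ZMod 2)
  refine ⟨range fun w : W => (z.1, w.1 + z.2), finite_range _, fun x hx y hy x1 y1 φ => ?_⟩
  obtain ⟨g, g1, g2⟩ := fix W (u := x.2 - z.2) (u' := y.2 - z.2)
    (fun h => hx ⟨⟨_, h⟩, by simp [← x1]⟩) fun h => hy ⟨⟨_, h⟩, by simp [← y1]⟩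
  simpa [b, Sum.elim_comp_map] using one b (.inr false) rfl g
    (fun i j _ => g1 _ (Submodule.subset_span ⟨(i, j), rfl⟩)) x y (by simp [x1, y1])
    (fun i _ => by
      rw [← sub_add_sub_cancel x.2 z.2, map_add, g2,
        g1 (z.2 - (b i).2) (Submodule.subset_span ⟨(.inr true, i), rfl⟩), sub_add_sub_cancel])
    (φ.relabel (Sum.map .inl id))

theorem faraway {α : Type} [Finite α] (a : α → X) (x y : X) (hx : ∀ i, x.1 ≠ (a i).1)
    (hy : ∀ i, y.1 ≠ (a i).1) (x0 : x.1 ≠ 0) (y0 : y.1 ≠ 0) (φ : (CL G).Formula (α ⊕ Unit)) :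
    φ.Realize (Sum.elim a fun _ => x) ↔ φ.Realize (Sum.elim a fun _ => y) := by
  simpa [Sum.elim_comp_map] using one (Sum.elim a fun _ : Unit => o) (.inr ()) rfl (.refl _ _)
    (fun _ _ _ => rfl) x y (by simp [*, o]) (by simp [*, o]) (φ.relabel (Sum.map .inl id))

end Pool.Agent.H.MP_5076ba_lc
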